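import Pool.Agent.GT2.Lnk
import Pool.Agent.WAG.AConv

/-!
# MP_6c4da4_ag, curves of genus at most two: the Chow motives (helper52)
-/

set_option autoImplicit false

open CategoryTheory MonoidalCategory Limits Polynomial CHS AlmostAll

universe v u w x

namespace Pool.Agent.GTM

open Pool.Agent.GT2

/-- The category of the Chow motives generated by the finite extensions of `k` and the `h¹(A)` of the
abelian varieties `A` over `k` with eigenvalues of Frobenius in `Λ` is abelian, and numerically trivial
morphisms and cycles in it are zero. -/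
def Settled {V : Type u} [Category.{v} V] [CartesianMonoidalCategory V]
    {T : ChowTheory.{v, u, w} V} {K : Cohomology.{v, u, w, x} T} (D : AbelianMotives K)
    (Λ : ℂ → Prop) : Prop :=
  IsAbelian (CatBy (D.Gn Λ)) ∧
    (∀ (M N : Mot T) (f : M ⟶ N), GenBy (D.Gn Λ) M → GenBy (D.Gn Λ) N →
      T.NumTrivial (Mot.Hom.val f) → f = 0) ∧
    ∀ X : V, GenBy (D.Gn Λ) (Mot.h T X) → ∀ a : T.CH X, T.NumTrivial a → a = 0

theorem settled {V : Type u} [Category.{v} V] [CartesianMonoidalCategory V]
    {T : ChowTheory.{v, u, w} V} {K : Cohomology.{v, u, w, x} T} (D : AbelianMotives K)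
    (hp : T.q.Prime) {S : Set ℤ[X]} (hS : S ⊆ RW 1 T.q ∪ RW 2 T.q)
    (hPar : Par T.q (Adm T.q S)) : Settled D (Adm T.q S) := by
  refine WAG.main_chow.1 V T K D _ hPar fun z hz => norm_adm' hp.one_lt.le ?_ hz
  intro h hh
  rcases hS hh with h1 | h1
  · exact ⟨1, h1⟩
  · exact ⟨2, h1⟩

end Pool.Agent.GTM
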