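import Pool.Agent.GTM.Main
import Pool.Agent.GT3.Lnk

/-!
# MP_6c4da4_ag, elliptic curves and abelian surfaces over all finite fields: the Chow motives (helper52)
-/

set_option autoImplicit false

open CategoryTheory MonoidalCategory Limits Polynomial CHS AlmostAll

universe v u w x

namespace Pool.Agent.GTM

open Pool.Agent.GT2 Pool.Agent.GT3

theorem settled3 {V : Type u} [Category.{v} V] [CartesianMonoidalCategory V]
    {T : ChowTheory.{v, u, w} V} {K : Cohomology.{v, u, w, x} T} (D : AbelianMotives K)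
    {S : Set ℤ[X]} (hS : S ⊆ All 1 T.q ∪ T2 T.q) (hPar : Par T.q (Adm T.q S)) :
    Settled D (Adm T.q S) := by
  refine WAG.main_chow.1 V T K D _ hPar fun z hz => norm_adm' T.one_lt.le ?_ hz
  intro h hh
  rcases hS hh with h1 | h1
  · exact ⟨1, h1.1⟩
  · exact ⟨2, h1.1⟩

end Pool.Agent.GTM
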